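import Pool.Agent.H606R2.FF.Main

/-!
# Flat folding of plane graphs, without flat angles and with free mountains and valleys, is in P

The definitions are in `Pool.Agent.H606R2.FF.Defs` (plane graphs as rotation systems, flat folded
states as layer orders, the code of a plane graph and the decision problem) and in
`Pool.Agent.NPC.Classes` (the class `P`).
-/

namespace Pool.Agent.Results.MP_b92007_lc.FlatFoldingInP

open Pool.Agent.NPC Pool.Agent.H606R2.FF

/-- It can be decided in polynomial time, from its code (rotation system, outer face, edge lengths
in binary), whether a plane graph has a flat folded state in which no angle is flat, with the choice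
of the mountains and valleys left free. -/
theorem result :
    InP FlatFolding ∧
    ∀ (n : ℕ) (G : PlaneGraph (Fin n)), G.code ∈ FlatFolding ↔ G.FlatFoldable := by
  refine ⟨flatFolding_inP, fun n G => ⟨?_, fun h => ⟨n, G, rfl, h⟩⟩⟩
  rintro ⟨m, G', h, hG'⟩
  rw [code_eq, code_eq] at h
  have h' := bits_injective h
  rw [← decideT_iff, ← h', decideT_iff]
  exact hG'

end Pool.Agent.Results.MP_b92007_lc.FlatFoldingInP
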